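import Pool.Agent.Q70.KiC

/-!
# Path-independent stabilizability does not give an exponential rate

Answer to Q1 of MP_3f52e1_an: **no**.  There are two `5 × 10` matrices and two `10 × 5` matrices
whose alternating products `A_n B_n ⋯ A_1 B_1` are path-independent stabilizable, while for every
choice of the sequence `(B_n)` and every `n` the player choosing the `A`'s can keep an entry of the
product of absolute value at least one.
-/

namespace Pool.Agent.Results.MP_3f52e1_an.NoUniformRate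

open Matrix Filter Topology

/-- The product `A_n B_n ⋯ A_1 B_1`; the sequences are indexed from `0`, so that the factors
`A_1, …, A_n` are `A 0, …, A (n - 1)`, and the product for `n = 0` is the identity matrix. -/
def product {N M : ℕ} (A : ℕ → Matrix (Fin N) (Fin M) ℝ) (B : ℕ → Matrix (Fin M) (Fin N) ℝ) :
    ℕ → Matrix (Fin N) (Fin N) ℝ
  | 0 => 1
  | n + 1 => A n * B n * product A B n

/-- Path-independent stabilizability of the products with factors from `𝒜` and `ℬ`, with respect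
to the norm `ν`. -/
def PathIndependentStabilizable {N M : ℕ} (ν : Seminorm ℝ (Matrix (Fin N) (Fin N) ℝ))
    (𝒜 : Set (Matrix (Fin N) (Fin M) ℝ)) (ℬ : Set (Matrix (Fin M) (Fin N) ℝ)) : Prop :=
  ∃ B : ℕ → Matrix (Fin M) (Fin N) ℝ, (∀ n, B n ∈ ℬ) ∧
    ∀ A : ℕ → Matrix (Fin N) (Fin M) ℝ, (∀ n, A n ∈ 𝒜) →
      Tendsto (fun n => ν (product A B n)) atTop (𝓝 0)

/-- There is a sequence from `ℬ` which stabilizes all products with one geometric rate. -/
def UniformExponential {N M : ℕ} (ν : Seminorm ℝ (Matrix (Fin N) (Fin N) ℝ))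
    (𝒜 : Set (Matrix (Fin N) (Fin M) ℝ)) (ℬ : Set (Matrix (Fin M) (Fin N) ℝ)) : Prop :=
  ∃ B : ℕ → Matrix (Fin M) (Fin N) ℝ, (∀ n, B n ∈ ℬ) ∧
    ∃ C l : ℝ, 0 < C ∧ 0 < l ∧ l < 1 ∧
      ∀ A : ℕ → Matrix (Fin N) (Fin M) ℝ, (∀ n, A n ∈ 𝒜) →
        ∀ n : ℕ, 1 ≤ n → ν (product A B n) ≤ C * l ^ n

/-- **Answer to Q1: no.**  There are sets `𝒜`, `ℬ` of two `5 × 10`, respectively two `10 × 5`, real
matrices such that for every choice of the sequence `(B_n)` from `ℬ` and every `n` some choice of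
the `A`'s makes an entry of `A_n B_n ⋯ A_1 B_1` of absolute value at least one, and such that for
every norm `ν` the products are path-independent stabilizable but no sequence from `ℬ` stabilizes
them with a uniform geometric rate. -/
theorem result :
    ∃ (𝒜 : Set (Matrix (Fin 5) (Fin 10) ℝ)) (ℬ : Set (Matrix (Fin 10) (Fin 5) ℝ)),
      𝒜.ncard = 2 ∧ ℬ.ncard = 2 ∧
      (∀ B : ℕ → Matrix (Fin 10) (Fin 5) ℝ, (∀ n, B n ∈ ℬ) → ∀ n : ℕ,
        ∃ A : ℕ → Matrix (Fin 5) (Fin 10) ℝ, (∀ k, A k ∈ 𝒜) ∧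
          ∃ i j, 1 ≤ |product A B n i j|) ∧
      ∀ ν : Seminorm ℝ (Matrix (Fin 5) (Fin 5) ℝ), (∀ X, ν X = 0 → X = 0) →
        PathIndependentStabilizable ν 𝒜 ℬ ∧ ¬ UniformExponential ν 𝒜 ℬ := by
  have hP : ∀ (A : ℕ → Matrix (Fin 5) (Fin 10) ℝ) (B : ℕ → Matrix (Fin 10) (Fin 5) ℝ) (n : ℕ),
      product A B n = Q70.Ki.P A B n := by
    intro A B n
    induction n with
    | zero => rfl
    | succ n ih => simp only [product, Q70.Ki.P, ih]
  have hinjA : Q70.Ki.MA false ≠ Q70.Ki.MA true := by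
    intro h
    have h1 := Q70.Ki.mulVec_eq false true ![1, 0, 0, 0, 0]
    have h2 := Q70.Ki.mulVec_eq true true ![1, 0, 0, 0, 0]
    rw [h] at h1
    rw [h1] at h2
    have h3 := congrFun h2 0
    simp [Q70.Ki.st] at h3
  have hinjB : Q70.Ki.MB false ≠ Q70.Ki.MB true := by
    intro h
    have h1 := Q70.Ki.mulVec_eq false false ![1, 0, 0, 0, 0]
    have h2 := Q70.Ki.mulVec_eq false true ![1, 0, 0, 0, 0]
    rw [h] at h1
    rw [h1] at h2
    have h3 := congrFun h2 0
    simp [Q70.Ki.st] at h3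
  have key : ∀ B : ℕ → Matrix (Fin 10) (Fin 5) ℝ,
      (∀ n, B n ∈ ({Q70.Ki.MB false, Q70.Ki.MB true} : Set _)) → ∀ n : ℕ,
        ∃ A : ℕ → Matrix (Fin 5) (Fin 10) ℝ,
          (∀ k, A k ∈ ({Q70.Ki.MA false, Q70.Ki.MA true} : Set _)) ∧
          ∃ i j, 1 ≤ |product A B n i j| := by
    intro B hB n
    have hB' : ∀ n, ∃ b : Bool, B n = Q70.Ki.MB b := by
      intro n
      rcases hB n with h | h
      · exact ⟨false, h⟩
      · exact ⟨true, h⟩
    choose b hb using hB'
    obtain ⟨a, i, hi⟩ := Q70.Ki.exists_large b n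
    refine ⟨fun n => Q70.Ki.MA (a n), ?_, i, 0, ?_⟩
    · intro k
      cases h : a k
      · left; simp [h]
      · right; simp [h]
    · have hBe : B = fun n => Q70.Ki.MB (b n) := funext hb
      rw [hP, hBe]
      rw [← Q70.Ki.P_mulVec] at hi
      have h3 : (![1, 0, 0, 0, 0] : Fin 5 → ℝ) = Pi.single 0 1 := by
        ext j; fin_cases j <;> simp
      rw [h3, Matrix.mulVec_single_one] at hi
      exact hi
  refine ⟨{Q70.Ki.MA false, Q70.Ki.MA true}, {Q70.Ki.MB false, Q70.Ki.MB true},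
    Set.ncard_pair hinjA, Set.ncard_pair hinjB, key, fun ν hν => ⟨?_, ?_⟩⟩
  · refine ⟨fun n => Q70.Ki.MB (Q70.Ki.bb n), ?_, ?_⟩
    · intro n
      cases h : Q70.Ki.bb n
      · left; simp [h]
      · right; simp [h]
    · intro A hA
      have hA' : ∀ n, ∃ a : Bool, A n = Q70.Ki.MA a := by
        intro n
        rcases hA n with h | h
        · exact ⟨false, h⟩
        · exact ⟨true, h⟩
      choose a ha using hA'
      have hAe : A = fun n => Q70.Ki.MA (a n) := funext ha
      have h0 : Tendsto (fun n => product A (fun n => Q70.Ki.MB (Q70.Ki.bb n)) n) atTop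
          (𝓝 (0 : Matrix (Fin 5) (Fin 5) ℝ)) := by
        refine tendsto_pi_nhds.2 fun i => tendsto_pi_nhds.2 fun j => ?_
        have h1 := Q70.Ki.orb_tendsto a (Pi.single j 1)
        rw [tendsto_pi_nhds] at h1
        refine (h1 i).congr fun n => ?_
        rw [hP, hAe, ← Q70.Ki.P_mulVec, Matrix.mulVec_single_one]
        rfl
      have h2 := (Q70.Ki.mat_continuous ν).tendsto (0 : Matrix (Fin 5) (Fin 5) ℝ)
      rw [map_zero] at h2
      exact h2.comp h0
  · rintro ⟨B, hB, C, l, hC, hl0, hl1, h⟩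
    obtain ⟨c, hc, hlow⟩ := Q70.Ki.mat_lower ν hν
    obtain ⟨n, hn⟩ := exists_pow_lt_of_lt_one (show 0 < c / C by positivity) hl1
    have hn' : l ^ (n + 1) < c / C := by
      rw [pow_succ]
      calc l ^ n * l ≤ l ^ n * 1 := by gcongr
        _ < c / C := by rw [mul_one]; exact hn
    obtain ⟨A, hA, i, j, hij⟩ := key B hB (n + 1)
    have h1 := h A hA (n + 1) (by omega)
    have h2 := hlow (product A B (n + 1)) i j
    have h3 : C * l ^ (n + 1) < c := by
      rw [lt_div_iff₀ hC] at hn'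
      linarith
    nlinarith

end Pool.Agent.Results.MP_3f52e1_an.NoUniformRate
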